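import Pool.Agent.Helpers.HD5

set_option autoImplicit false

open MvPolynomial

namespace Pool.Agent.Results.MP_411355_ag.Disconnected

universe u

/-- The `R`-module `M` is locally free of (finite, constant) rank `r`, i.e. it is finitely
generated, projective, and its stalk at every prime has rank `r`. -/
def LocallyFreeOfRank (R M : Type u) [CommRing R] [AddCommGroup M] [Module R M] (r : ℕ) : Prop :=
  Module.Finite R M ∧ Module.Projective R M ∧ ∀ p : PrimeSpectrum R, Module.rankAtStalk M p = r

/-- `I` is an `R`-point of the multigraded Hilbert scheme of `k[x_1, ..., x_n]`, graded by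
`deg x_i = deg i`, with Hilbert function `h`: the ideal `I` of `R[x_1, ..., x_n]` is homogeneous
(it contains the graded components of its elements) and for all `a` the degree `a` part
`(R[x])_a / I_a` of the quotient is a locally free `R`-module of rank `h a`. -/
def IsHilbPoint {n : ℕ} {A : Type} [AddCommGroup A] (deg : Fin n → A) (h : A → ℕ)
    (R : Type u) [CommRing R] (I : Ideal (MvPolynomial (Fin n) R)) : Prop :=
  (∀ f ∈ I, ∀ a : A, weightedHomogeneousComponent deg a f ∈ I) ∧
  ∀ a : A, LocallyFreeOfRank R
    (weightedHomogeneousSubmodule R deg a ⧸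
      (I.restrictScalars R).comap (weightedHomogeneousSubmodule R deg a).subtype) (h a)

/-- The `k`-algebra `B` represents the multigraded Hilbert functor (i.e. the multigraded Hilbert
scheme is `Spec B`): there is a universal ideal `J`, a `B`-point, whose extension along every
`k`-algebra map `B → R` is an `R`-point, and such that every `R`-point is the extension of `J`
along exactly one `k`-algebra map `B → R`. -/
def Represents (k : Type u) [Field k] {n : ℕ} {A : Type} [AddCommGroup A] (deg : Fin n → A)
    (h : A → ℕ) (B : Type u) [CommRing B] [Algebra k B] : Prop :=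
  ∃ J : Ideal (MvPolynomial (Fin n) B), IsHilbPoint deg h B J ∧
    ∀ (R : Type u) [CommRing R] [Algebra k R],
      (∀ φ : B →ₐ[k] R, IsHilbPoint deg h R (J.map (MvPolynomial.map (φ : B →+* R)))) ∧
      ∀ I : Ideal (MvPolynomial (Fin n) R), IsHilbPoint deg h R I →
        ∃! φ : B →ₐ[k] R, J.map (MvPolynomial.map (φ : B →+* R)) = I

/-- Over every field `k`, for the grading of `k[x_1, x_2, x_3]` by `ℤ × ℤ` with degrees `(2, 0)`,
`(0, 2)`, `(1, 1)`, some function `h` has multigraded Hilbert scheme `Spec (k × k)`: it is
nonempty and not connected (two reduced `k`-points). -/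
theorem result (k : Type u) [Field k] :
    ∃ h : ℤ × ℤ → ℕ,
      Represents k (![(2, 0), (0, 2), (1, 1)] : Fin 3 → ℤ × ℤ) h (k × k) ∧
      Nonempty (PrimeSpectrum (k × k)) ∧ ¬ ConnectedSpace (PrimeSpectrum (k × k)) := by
  obtain ⟨h1, h2⟩ := HD.main k
  exact ⟨HD.hf2, ⟨HD.Ie (1, 0), h1, h2⟩, HD.spec_nonempty k, HD.spec_not_connected k⟩

end Pool.Agent.Results.MP_411355_ag.Disconnected
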